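import Pool.Agent.Mg.F45960e.Gfad5e2

namespace Pool.Agent.MP_45960e_lc.Old.SuperLogRounds

open Pool.Agent.MP_45960e_lc Filter Topology

theorem result : ∃ (G : ℕ → Type) (_ : ∀ m, Group (G m)) (_ : ∀ m, Finite (G m)) (k : ℕ),
    Tendsto (fun m => Nat.card (G m)) atTop atTop ∧ 1 ≤ k ∧
    (∀ m, ∃ r : ℕ, 1 ≤ r ∧ Identifies k r (G m)) ∧
    ∀ k' : ℕ, Tendsto
      (fun m => ((Rounds k' (G m) : ℕ∞) : ENNReal) / ENNReal.ofReal (Real.log (Nat.card (G m))))
      atTop (𝓝 ⊤) := by
  choose G hG hF h1 h2 h3 using exists_group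
  refine ⟨G, hG, hF, 12, tendsto_atTop_mono (fun m => (by have := h1 m; omega : m ≤ _))
    tendsto_id, by norm_num, fun m => ?_, fun k' => ?_⟩
  · obtain ⟨r, hr⟩ := h2 m
    exact ⟨r + 1, by omega, fun H _ _ hc hi => wins_succ _ _ (hr H hc hi)⟩
  · rw [ENNReal.tendsto_nhds_top_iff_nat]
    intro n
    filter_upwards [eventually_gt_atTop k', eventually_ge_atTop n] with m hm hn
    have hlog : 0 < Real.log (Nat.card (G m)) := by
      apply Real.log_pos
      have := h1 m
      exact_mod_cast (by omega : 1 < Nat.card (G m))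
    have hle : ((m + 1 : ℕ) : ENNReal) * ENNReal.ofReal (Real.log (Nat.card (G m))) ≤
        ((Rounds k' (G m) : ℕ∞) : ENNReal) := by
      rw [Rounds, sInf_eq_iInf]
      simp only [ENat.toENNReal_iInf]
      refine le_iInf₂ ?_
      rintro _ ⟨r, -, hr, rfl⟩
      have := ENNReal.ofReal_le_ofReal (h3 m k' hm r hr)
      rw [ENNReal.ofReal_mul (by positivity), ENNReal.ofReal_natCast] at this
      refine le_trans (le_of_eq ?_) (this.trans (by simp))
      congr 1
      rw [← ENNReal.ofReal_natCast]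
      push_cast
      rfl
    refine lt_of_lt_of_le (b := ((m + 1 : ℕ) : ENNReal)) (by exact_mod_cast (by omega)) ?_
    exact (ENNReal.le_div_iff_mul_le (Or.inl (by simpa using hlog))
      (Or.inl ENNReal.ofReal_ne_top)).2 hle

end Pool.Agent.MP_45960e_lc.Old.SuperLogRounds
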